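import Mathlib
import Pool.Agent.SPT.RelF

/-!
# TRJ, module Lead: signs and weights (helper16)

`X` is a finite set of vectors over the field with two elements, `J` a subset, `w` an integral weight
vector. At the point `(-1) ^ J * z ^ w` the polynomial of the spanning sets of `X` has for `z → 1` the
leading coefficient `P_J(-1) * tau`, where `tau` is the sum over the bases `B` of the contraction `X / J`
of the products of the weights of the elements of `B`.
-/

set_option autoImplicit false
set_option linter.unusedSectionVars false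

open Submodule Module

namespace Pool.Agent.TRJ

open Pool.Agent.SPT Pool.Agent.SPT.Rel Pool.Agent.SPT.Odd

variable {V : Type} [AddCommGroup V] [Module (ZMod 2) V] [DecidableEq V]

open Classical in
/-- the sum of the products of the weights over the bases of `X / J` -/
noncomputable def tau (X J : Finset V) (w : V → ℤ) : ℤ :=
  ∑ B ∈ (X \ J).powerset, if span (ZMod 2) ((J ∪ B : Finset V) : Set V) =
      span (ZMod 2) (X : Set V) ∧ B.card + finrank (ZMod 2) (span (ZMod 2) (J : Set V)) =
        finrank (ZMod 2) (span (ZMod 2) (X : Set V))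
    then ∏ v ∈ B, w v else 0

/-- the sum over the subsets of `X` is a double sum over the subsets of `J` and of `X \ J` -/
theorem sum_split {M : Type} [AddCommMonoid M] (X J : Finset V) (hJ : J ⊆ X)
    (f : Finset V → M) : ∑ W ∈ X.powerset, f W =
      ∑ A ∈ J.powerset, ∑ B ∈ (X \ J).powerset, f (A ∪ B) := by
  rw [← Finset.sum_product']
  symm
  refine Finset.sum_nbij' (fun p => p.1 ∪ p.2) (fun W => (W ∩ J, W \ J)) ?_ ?_ ?_ ?_ ?_
  · rintro ⟨A, B⟩ h
    rw [Finset.mem_product, Finset.mem_powerset, Finset.mem_powerset] at h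
    rw [Finset.mem_powerset]
    exact Finset.union_subset (h.1.trans hJ) (h.2.trans Finset.sdiff_subset)
  · intro W h
    rw [Finset.mem_powerset] at h
    rw [Finset.mem_product, Finset.mem_powerset, Finset.mem_powerset]
    exact ⟨Finset.inter_subset_right, Finset.sdiff_subset_sdiff h (Finset.Subset.refl J)⟩
  · rintro ⟨A, B⟩ h
    rw [Finset.mem_product, Finset.mem_powerset, Finset.mem_powerset] at h
    have hA : A ⊆ J := h.1
    have hB : B ⊆ X \ J := h.2
    refine Prod.ext ?_ ?_
    · ext v
      rw [Finset.mem_inter, Finset.mem_union]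
      constructor
      · rintro ⟨h1 | h1, h2⟩
        · exact h1
        · exact absurd h2 (Finset.mem_sdiff.1 (hB h1)).2
      · intro h1
        exact ⟨Or.inl h1, hA h1⟩
    · ext v
      rw [Finset.mem_sdiff, Finset.mem_union]
      constructor
      · rintro ⟨h1 | h1, h2⟩
        · exact absurd (hA h1) h2
        · exact h1
      · intro h1
        exact ⟨Or.inr h1, (Finset.mem_sdiff.1 (hB h1)).2⟩
  · intro W _
    ext v
    rw [Finset.mem_union, Finset.mem_inter, Finset.mem_sdiff]
    tauto
  · rintro ⟨A, B⟩ _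
    rfl

/-- ranks -/
theorem rank_le (X A B : Finset V)
    (hs : span (ZMod 2) ((A ∪ B : Finset V) : Set V) = span (ZMod 2) (X : Set V)) :
    finrank (ZMod 2) (span (ZMod 2) (X : Set V)) ≤
      B.card + finrank (ZMod 2) (span (ZMod 2) (A : Set V)) := by
  classical
  rw [← hs, Finset.coe_union, span_union]
  have h1 := Submodule.finrank_add_le_finrank_add_finrank (span (ZMod 2) (A : Set V))
    (span (ZMod 2) (B : Set V))
  have h2 : finrank (ZMod 2) (span (ZMod 2) (B : Set V)) ≤ B.card :=
    finrank_span_finset_le_card B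
  omega

theorem rank_mono (J A : Finset V) (hA : A ⊆ J) :
    finrank (ZMod 2) (span (ZMod 2) (A : Set V)) ≤
      finrank (ZMod 2) (span (ZMod 2) (J : Set V)) :=
  Submodule.finrank_mono (span_mono (Finset.coe_subset.2 hA))

/-- the spanning sets with the smallest number of elements outside of `J` -/
theorem span_iff (X J A B : Finset V) (hA : A ⊆ J)
    (hB : B.card + finrank (ZMod 2) (span (ZMod 2) (J : Set V)) =
      finrank (ZMod 2) (span (ZMod 2) (X : Set V))) (hJX : J ⊆ X) (hBX : B ⊆ X) :
    span (ZMod 2) ((A ∪ B : Finset V) : Set V) = span (ZMod 2) (X : Set V) ↔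
      span (ZMod 2) (A : Set V) = span (ZMod 2) (J : Set V) ∧
        span (ZMod 2) ((J ∪ B : Finset V) : Set V) = span (ZMod 2) (X : Set V) := by
  constructor
  · intro h
    refine ⟨?_, le_antisymm ?_ ?_⟩
    · refine Submodule.eq_of_le_of_finrank_le (span_mono (Finset.coe_subset.2 hA)) ?_
      have h1 := rank_le X A B h
      omega
    · exact span_mono (Finset.coe_subset.2 (Finset.union_subset hJX hBX))
    · rw [← h]
      exact span_mono (Finset.coe_subset.2 (Finset.union_subset_union hA (Finset.Subset.refl B)))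
  · rintro ⟨h1, h2⟩
    rw [← h2, Finset.coe_union, Finset.coe_union, span_union, span_union, h1]

/-- the weights -/
noncomputable def wt (J : Finset V) (w : V → ℤ) (z : ℂ) (v : V) : ℂ :=
  (if v ∈ J then -1 else 1) * z ^ w v

theorem prod_wt (J : Finset V) (w : V → ℤ) (z : ℂ) (hz : z ≠ 0) (S : Finset V) :
    ∏ v ∈ S, wt J w z v = (-1) ^ (S ∩ J).card * z ^ su w S := by
  unfold wt su
  rw [Finset.prod_mul_distrib, Finset.prod_ite_mem, Finset.prod_const]
  congr 1
  induction S using Finset.induction_on with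
  | empty => rw [Finset.prod_empty, Finset.sum_empty, zpow_zero]
  | insert a S ha ih => rw [Finset.prod_insert ha, Finset.sum_insert ha, zpow_add₀ hz, ih]

/-- the divided factor -/
noncomputable def dv (n : ℤ) (z : ℂ) : ℂ := dslope (fun z : ℂ => z ^ n) 1 z

theorem dv_one (n : ℤ) : dv n 1 = n := by
  unfold dv
  rw [dslope_same]
  have h := (hasDerivAt_zpow n (1 : ℂ) (Or.inl one_ne_zero)).deriv
  rw [h, one_zpow, mul_one]

theorem dv_mul (n : ℤ) (z : ℂ) : (z - 1) * dv n z = z ^ n - 1 := by
  unfold dv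
  have h := sub_smul_dslope (fun z : ℂ => z ^ n) 1 z
  rw [smul_eq_mul] at h
  rw [h, one_zpow]

theorem dv_cont (n : ℤ) : ContinuousAt (dv n) 1 := by
  unfold dv
  rw [continuousAt_dslope_same]
  exact (hasDerivAt_zpow n (1 : ℂ) (Or.inl one_ne_zero)).differentiableAt

open Classical in
/-- the divided sum -/
noncomputable def ds (X J : Finset V) (w : V → ℤ) (z : ℂ) : ℂ :=
  ∑ A ∈ J.powerset, ∑ B ∈ (X \ J).powerset,
    if Spans ⊥ X (A ∪ B) then (∏ v ∈ A, (-z ^ w v - 1)) * ((∏ v ∈ B, dv (w v) z) *
      (z - 1) ^ (B.card + finrank (ZMod 2) (span (ZMod 2) (J : Set V)) -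
        finrank (ZMod 2) (span (ZMod 2) (X : Set V)))) else 0

theorem PP_ds (X J : Finset V) (hJ : J ⊆ X) (w : V → ℤ) (z : ℂ) :
    PP X ⊥ (wt J w z) * (z - 1) ^ finrank (ZMod 2) (span (ZMod 2) (J : Set V)) =
      (z - 1) ^ finrank (ZMod 2) (span (ZMod 2) (X : Set V)) * ds X J w z := by
  classical
  unfold PP ds
  rw [sum_split X J hJ, Finset.sum_mul, Finset.mul_sum]
  refine Finset.sum_congr rfl fun A hA => ?_
  rw [Finset.sum_mul, Finset.mul_sum]
  refine Finset.sum_congr rfl fun B hB => ?_
  rw [Finset.mem_powerset] at hA hB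
  have hdis : Disjoint A B := by
    rw [Finset.disjoint_left]
    intro v h1 h2
    exact (Finset.mem_sdiff.1 (hB h2)).2 (hA h1)
  by_cases hs : Spans ⊥ X (A ∪ B)
  · rw [if_pos hs, if_pos hs, Finset.prod_union hdis]
    have h1 : ∏ v ∈ A, (wt J w z v - 1) = ∏ v ∈ A, (-z ^ w v - 1) := by
      refine Finset.prod_congr rfl fun v hv => ?_
      unfold wt
      rw [if_pos (hA hv)]
      ring
    have h2 : ∏ v ∈ B, (wt J w z v - 1) = (z - 1) ^ B.card * ∏ v ∈ B, dv (w v) z := by
      rw [← Finset.prod_const, ← Finset.prod_mul_distrib]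
      refine Finset.prod_congr rfl fun v hv => ?_
      unfold wt
      rw [if_neg (Finset.mem_sdiff.1 (hB hv)).2, one_mul, dv_mul]
    have h3 : finrank (ZMod 2) (span (ZMod 2) (X : Set V)) ≤
        B.card + finrank (ZMod 2) (span (ZMod 2) (J : Set V)) := by
      unfold Spans at hs
      rw [bot_sup_eq, bot_sup_eq] at hs
      have h4 := rank_le X A B hs
      have h5 := rank_mono J A hA
      omega
    obtain ⟨k, hk⟩ := Nat.exists_eq_add_of_le h3
    rw [h1, h2, hk, Nat.add_sub_cancel_left]
    have h4 : (z - 1) ^ B.card * (z - 1) ^ finrank (ZMod 2) (span (ZMod 2) (J : Set V)) =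
        (z - 1) ^ finrank (ZMod 2) (span (ZMod 2) (X : Set V)) * (z - 1) ^ k := by
      rw [← pow_add, hk, pow_add]
    linear_combination (∏ v ∈ A, (-z ^ w v - 1)) * (∏ v ∈ B, dv (w v) z) * h4
  · rw [if_neg hs, if_neg hs, zero_mul, mul_zero]

theorem ds_cont (X J : Finset V) (w : V → ℤ) : ContinuousAt (ds X J w) 1 := by
  classical
  unfold ds
  refine tendsto_finsetSum _ fun A _ => tendsto_finsetSum _ fun B _ => ?_
  by_cases hs : Spans ⊥ X (A ∪ B)
  · simp only [if_pos hs]
    refine Filter.Tendsto.mul (tendsto_finsetProd _ fun v _ => ?_)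
      (Filter.Tendsto.mul (tendsto_finsetProd _ fun v _ => dv_cont (w v)) ?_)
    · have h1 : ContinuousAt (fun z : ℂ => z ^ w v) 1 :=
        continuousAt_zpow₀ _ _ (Or.inl one_ne_zero)
      exact h1.neg.sub continuousAt_const
    · exact (continuousAt_id.sub continuousAt_const).pow _
  · simp only [if_neg hs]
    exact tendsto_const_nhds

theorem ds_one (X J : Finset V) (hJ : J ⊆ X) (w : V → ℤ) :
    ds X J w 1 = PP J ⊥ (fun _ => -1) * (tau X J w : ℂ) := by
  classical
  unfold ds PP tau
  rw [Int.cast_sum, Finset.sum_mul_sum]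
  refine Finset.sum_congr rfl fun A hA => Finset.sum_congr rfl fun B hB => ?_
  rw [Finset.mem_powerset] at hA hB
  have hBX : B ⊆ X := hB.trans Finset.sdiff_subset
  by_cases hc : B.card + finrank (ZMod 2) (span (ZMod 2) (J : Set V)) =
      finrank (ZMod 2) (span (ZMod 2) (X : Set V))
  · have hi := span_iff X J A B hA hc hJ hBX
    have h1 : Spans ⊥ X (A ∪ B) ↔ Spans ⊥ J A ∧
        span (ZMod 2) ((J ∪ B : Finset V) : Set V) = span (ZMod 2) (X : Set V) := by
      unfold Spans
      rw [bot_sup_eq, bot_sup_eq, bot_sup_eq, bot_sup_eq]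
      exact hi
    by_cases h2 : Spans ⊥ J A
    · by_cases h3 : span (ZMod 2) ((J ∪ B : Finset V) : Set V) = span (ZMod 2) (X : Set V)
      · rw [if_pos (h1.2 ⟨h2, h3⟩), if_pos h2, if_pos ⟨h3, hc⟩, hc, Nat.sub_self, pow_zero,
          mul_one, Int.cast_prod]
        congr 1
        · refine Finset.prod_congr rfl fun v _ => ?_
          rw [one_zpow]
        · exact Finset.prod_congr rfl fun v _ => dv_one _
      · rw [if_neg (fun h => h3 (h1.1 h).2), if_pos h2, if_neg (fun h => h3 h.1), Int.cast_zero,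
          mul_zero]
    · rw [if_neg (fun h => h2 (h1.1 h).1), if_neg h2, zero_mul]
  · rw [if_neg (fun h : _ ∧ _ => hc h.2), Int.cast_zero, mul_zero]
    by_cases hs : Spans ⊥ X (A ∪ B)
    · rw [if_pos hs]
      have h3 : finrank (ZMod 2) (span (ZMod 2) (X : Set V)) ≤
          B.card + finrank (ZMod 2) (span (ZMod 2) (J : Set V)) := by
        unfold Spans at hs
        rw [bot_sup_eq, bot_sup_eq] at hs
        have h4 := rank_le X A B hs
        have h5 := rank_mono J A hA
        omega
      have h4 : B.card + finrank (ZMod 2) (span (ZMod 2) (J : Set V)) -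
          finrank (ZMod 2) (span (ZMod 2) (X : Set V)) ≠ 0 := by omega
      rw [sub_self, zero_pow h4, mul_zero, mul_zero]
    · rw [if_neg hs]

/-- **There is a point of the curve at which the polynomial does not vanish.** -/
theorem lead_ne (X J : Finset V) (hJ : J ⊆ X) (w : V → ℤ) (ht : tau X J w ≠ 0) :
    ∃ z : ℂ, z ≠ 0 ∧ PP X ⊥ (wt J w z) ≠ 0 := by
  classical
  by_contra hno
  push Not at hno
  have h1 : ∀ᶠ z in nhdsWithin (1 : ℂ) {1}ᶜ, ds X J w z = 0 := by
    have h2 : ∀ᶠ z in nhdsWithin (1 : ℂ) {1}ᶜ, z ≠ 0 :=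
      (isOpen_ne.eventually_mem (show (1 : ℂ) ≠ 0 from one_ne_zero)).filter_mono
        nhdsWithin_le_nhds
    filter_upwards [h2, self_mem_nhdsWithin] with z hz hz1
    have h3 := PP_ds X J hJ w z
    rw [hno z hz, zero_mul] at h3
    have h4 : z - 1 ≠ 0 := sub_ne_zero.2 hz1
    exact (mul_eq_zero.1 h3.symm).resolve_left (pow_ne_zero _ h4)
  have h2 : Filter.Tendsto (ds X J w) (nhdsWithin (1 : ℂ) {1}ᶜ) (nhds (ds X J w 1)) :=
    (ds_cont X J w).mono_left nhdsWithin_le_nhds
  have h3 : Filter.Tendsto (ds X J w) (nhdsWithin (1 : ℂ) {1}ᶜ) (nhds 0) :=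
    tendsto_const_nhds.congr' (h1.mono fun z hz => hz.symm)
  have h4 := tendsto_nhds_unique h2 h3
  rw [ds_one X J hJ w] at h4
  have h5 : 1 ≤ ‖PP J ⊥ (fun _ => (-1 : ℂ))‖ :=
    odd_main V J (fun _ => -1) (fun _ _ => Or.inr rfl) (by
      congr 1
      ext v
      exact ⟨fun h => h.1, fun h => ⟨h, rfl⟩⟩)
  rcases mul_eq_zero.1 h4 with h6 | h6
  · rw [h6, norm_zero] at h5
    norm_num at h5
  · exact ht (by exact_mod_cast h6)

/-- **Level form**: there are two sets with the same `u`-sum which have different `w`-sums or whose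
intersections with `J` have different parities. -/
theorem level_lead (X : Finset V) (u : V → ℤ) (h : ¬ NZu X u) (J : Finset V) (hJ : J ⊆ X)
    (w : V → ℤ) (ht : tau X J w ≠ 0) :
    ∃ S ⊆ X, ∃ S' ⊆ X, su u S = su u S' ∧
      (su w S ≠ su w S' ∨ Odd ((S ∩ J).card + (S' ∩ J).card)) := by
  classical
  by_contra hno
  push Not at hno
  obtain ⟨z, hz, hne⟩ := lead_ne X J hJ w ht
  refine hne ?_
  rw [PP_cc]
  rw [← Finset.sum_fiberwise_of_maps_to (s := X.powerset)
    (t := X.powerset.image fun S => ∑ v ∈ S, u v) (g := fun S => ∑ v ∈ S, u v)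
    (fun S hS => Finset.mem_image_of_mem _ hS)]
  refine Finset.sum_eq_zero fun s hs => ?_
  rw [Finset.mem_image] at hs
  obtain ⟨S₀, hS₀, rfl⟩ := hs
  have h3 : ∀ S ∈ X.powerset.filter (fun S => ∑ v ∈ S, u v = ∑ v ∈ S₀, u v),
      (cc X S : ℂ) * ∏ v ∈ S, wt J w z v =
        (cc X S : ℂ) * ((-1) ^ (S₀ ∩ J).card * z ^ su w S₀) := by
    intro S hS
    rw [Finset.mem_filter, Finset.mem_powerset] at hS
    rw [prod_wt J w z hz]
    obtain ⟨h4, h5⟩ := hno S hS.1 S₀ (Finset.mem_powerset.1 hS₀) hS.2
    rw [Nat.not_odd_iff_even, Nat.even_add] at h5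
    rw [h4]
    congr 2
    by_cases h6 : Even (S ∩ J).card
    · rw [h6.neg_one_pow, (h5.1 h6).neg_one_pow]
    · rw [(Nat.not_even_iff_odd.1 h6).neg_one_pow,
        (Nat.not_even_iff_odd.1 fun h7 => h6 (h5.2 h7)).neg_one_pow]
  rw [Finset.sum_congr rfl h3, ← Finset.sum_mul]
  have h4 := level_cc X u h (∑ v ∈ S₀, u v)
  have h5 : (∑ S ∈ X.powerset with ∑ v ∈ S, u v = ∑ v ∈ S₀, u v, (cc X S : ℂ)) = 0 := by
    rw [← Int.cast_sum, h4, Int.cast_zero]
  rw [h5, zero_mul]

/-- **With `Follows`** -/
theorem follows_lead (X : Finset V) (a u : V → ℤ) (C N : ℕ) (hF : Follows X a u C N)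
    (h : ¬ NZu X u) (J : Finset V) (hJ : J ⊆ X) (w : V → ℤ) (ht : tau X J w ≠ 0) :
    ∃ d, Small X a N d ∧ (∑ v ∈ X, d v * w v ≠ 0 ∨ Odd (∑ v ∈ J, d v)) := by
  classical
  obtain ⟨S, hS, S', hS', hsu, hodd⟩ := level_lead X u h J hJ w ht
  refine ⟨_, small_of_rel X a u C N hF _ (rel_of_su X u S S' hS hS' hsu), ?_⟩
  rcases hodd with h1 | h1
  · left
    intro h2
    apply h1
    simp only [sub_mul] at h2
    rw [Finset.sum_sub_distrib, ← su_ic X S hS w, ← su_ic X S' hS' w] at h2
    omega
  · right
    rw [Finset.sum_sub_distrib, sum_ic, sum_ic]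
    rw [Nat.odd_add] at h1
    rw [Int.odd_sub, Int.odd_coe_nat, Int.even_coe_nat]
    exact h1

/-- nonnegative weights: `tau` is positive if the elements of `J` and those of positive weight span -/
theorem tau_pos (X J : Finset V) (w : V → ℤ) (hJ : J ⊆ X) (hw : ∀ v ∈ X, v ∉ J → 0 ≤ w v)
    (hs : span (ZMod 2) {v | v ∈ X ∧ (v ∈ J ∨ 0 < w v)} = span (ZMod 2) (X : Set V)) :
    0 < tau X J w := by
  classical
  obtain ⟨Y, hY⟩ : ∃ Y : Finset V, Y = (X \ J).filter fun v => 0 < w v := ⟨_, rfl⟩
  have hYX : Y ⊆ X \ J := by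
    rw [hY]
    exact Finset.filter_subset _ _
  have hs1 : span (ZMod 2) ((J ∪ Y : Finset V) : Set V) = span (ZMod 2) (X : Set V) := by
    rw [← hs]
    congr 1
    ext v
    rw [Finset.mem_coe, Finset.mem_union, hY, Finset.mem_filter, Finset.mem_sdiff]
    constructor
    · rintro (h1 | ⟨⟨h1, h2⟩, h3⟩)
      · exact ⟨hJ h1, Or.inl h1⟩
      · exact ⟨h1, Or.inr h3⟩
    · rintro ⟨h1, h2 | h2⟩
      · exact Or.inl h2
      · by_cases h3 : v ∈ J
        · exact Or.inl h3
        · exact Or.inr ⟨⟨h1, h3⟩, h2⟩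
  -- a smallest subset of `Y` which spans together with `J`
  obtain ⟨B, hB, hmin⟩ := Finset.exists_min_image
    (Y.powerset.filter fun B : Finset V => span (ZMod 2) ((J ∪ B : Finset V) : Set V) =
      span (ZMod 2) (X : Set V)) Finset.card
    ⟨Y, Finset.mem_filter.2 ⟨Finset.mem_powerset_self Y, hs1⟩⟩
  rw [Finset.mem_filter, Finset.mem_powerset] at hB
  have hcard : B.card + finrank (ZMod 2) (span (ZMod 2) (J : Set V)) =
      finrank (ZMod 2) (span (ZMod 2) (X : Set V)) := by
    have key : ∀ C : Finset V, C ⊆ B → finrank (ZMod 2)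
        (span (ZMod 2) ((J ∪ C : Finset V) : Set V)) =
          C.card + finrank (ZMod 2) (span (ZMod 2) (J : Set V)) := by
      intro C
      induction C using Finset.induction_on with
      | empty =>
        intro _
        rw [Finset.union_empty, Finset.card_empty, zero_add]
      | insert c C hc ih =>
        intro hCB
        have hC : C ⊆ B := (Finset.subset_insert c C).trans hCB
        have hcB : c ∈ B := hCB (Finset.mem_insert_self c C)
        rw [Finset.union_insert, Finset.coe_insert, span_insert, sup_comm,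
          finrank_sup_one _ c ?_, ih hC, Finset.card_insert_of_notMem hc]
        · omega
        · intro h1
          -- then `c` could be removed
          have h2 : c ∈ span (ZMod 2) ((J ∪ B.erase c : Finset V) : Set V) := by
            refine span_mono (Finset.coe_subset.2 (Finset.union_subset_union
              (Finset.Subset.refl J) ?_)) h1
            intro x hx
            exact Finset.mem_erase.2 ⟨fun h => hc (h ▸ hx), hC hx⟩
          have h3 : span (ZMod 2) ((J ∪ B.erase c : Finset V) : Set V) =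
              span (ZMod 2) (X : Set V) := by
            rw [← hB.2]
            refine le_antisymm (span_mono (Finset.coe_subset.2 (Finset.union_subset_union
              (Finset.Subset.refl J) (Finset.erase_subset c B)))) (span_le.2 ?_)
            intro x hx
            rw [Finset.mem_coe, Finset.mem_union] at hx
            by_cases hxc : x = c
            · rw [hxc]
              exact h2
            · refine subset_span (Finset.mem_coe.2 (Finset.mem_union.2 ?_))
              rcases hx with hx | hx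
              · exact Or.inl hx
              · exact Or.inr (Finset.mem_erase.2 ⟨hxc, hx⟩)
          have h4 := hmin (B.erase c) (Finset.mem_filter.2 ⟨Finset.mem_powerset.2
            ((Finset.erase_subset c B).trans hB.1), h3⟩)
          rw [Finset.card_erase_of_mem hcB] at h4
          have h5 := Finset.card_pos.2 ⟨c, hcB⟩
          omega
    rw [← key B (Finset.Subset.refl B), hB.2]
  unfold tau
  refine Finset.sum_pos' (fun C hC => ?_) ⟨B, Finset.mem_powerset.2 (hB.1.trans hYX), ?_⟩
  · split_ifs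
    · refine Finset.prod_nonneg fun v hv => ?_
      have h1 := Finset.mem_powerset.1 hC hv
      rw [Finset.mem_sdiff] at h1
      exact hw v h1.1 h1.2
    · exact le_refl 0
  · rw [if_pos ⟨hB.2, hcard⟩]
    refine Finset.prod_pos fun v hv => ?_
    have h1 := hB.1 hv
    rw [hY, Finset.mem_filter] at h1
    exact h1.2

end Pool.Agent.TRJ
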