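import Mathlib
import Pool.Agent.TRJ.Lead

/-!
# TRJ, module Large: large classes, signs and weights (helper16; the idea of the large classes is due to
helper3)

`L` is a set of elements of `X` whose numbers are larger than all the other numbers together; only the
sets `S` with `S ∩ L = E` are taken into account.
-/

set_option autoImplicit false
set_option linter.unusedSectionVars false

open Submodule Module

namespace Pool.Agent.TRJ

open Pool.Agent.SPT Pool.Agent.SPT.Rel Pool.Agent.SPT.Odd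

variable {V : Type} [AddCommGroup V] [Module (ZMod 2) V] [DecidableEq V]

/-! ### the leading coefficient after a contraction -/

open Classical in
/-- the sum of the products of the weights over the bases of `Y / F`, after contraction of `K` -/
noncomputable def tauK (K : Submodule (ZMod 2) V) (Y F : Finset V) (w : V → ℤ) : ℤ :=
  ∑ B ∈ (Y \ F).powerset, if K ⊔ span (ZMod 2) ((F ∪ B : Finset V) : Set V) =
      K ⊔ span (ZMod 2) (Y : Set V) ∧
        B.card + finrank (ZMod 2) (K ⊔ span (ZMod 2) (F : Set V) : Submodule (ZMod 2) V) =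
        finrank (ZMod 2) (K ⊔ span (ZMod 2) (Y : Set V) : Submodule (ZMod 2) V)
    then ∏ v ∈ B, w v else 0

theorem rankK_le (K : Submodule (ZMod 2) V) [FiniteDimensional (ZMod 2) K] (Y A B : Finset V)
    (hs : K ⊔ span (ZMod 2) ((A ∪ B : Finset V) : Set V) = K ⊔ span (ZMod 2) (Y : Set V)) :
    finrank (ZMod 2) (K ⊔ span (ZMod 2) (Y : Set V) : Submodule (ZMod 2) V) ≤
      B.card + finrank (ZMod 2) (K ⊔ span (ZMod 2) (A : Set V) : Submodule (ZMod 2) V) := by
  classical
  rw [← hs, Finset.coe_union, span_union, ← sup_assoc]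
  have h1 := Submodule.finrank_add_le_finrank_add_finrank (K ⊔ span (ZMod 2) (A : Set V))
    (span (ZMod 2) (B : Set V))
  have h2 : finrank (ZMod 2) (span (ZMod 2) (B : Set V)) ≤ B.card :=
    finrank_span_finset_le_card B
  omega

theorem rankK_mono (K : Submodule (ZMod 2) V) [FiniteDimensional (ZMod 2) K] (F A : Finset V)
    (hA : A ⊆ F) :
    finrank (ZMod 2) (K ⊔ span (ZMod 2) (A : Set V) : Submodule (ZMod 2) V) ≤
      finrank (ZMod 2) (K ⊔ span (ZMod 2) (F : Set V) : Submodule (ZMod 2) V) :=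
  Submodule.finrank_mono (sup_le_sup_left (span_mono (Finset.coe_subset.2 hA)) K)

theorem spanK_iff (K : Submodule (ZMod 2) V) [FiniteDimensional (ZMod 2) K] (Y F A B : Finset V)
    (hA : A ⊆ F)
    (hB : B.card + finrank (ZMod 2) (K ⊔ span (ZMod 2) (F : Set V) : Submodule (ZMod 2) V) =
      finrank (ZMod 2) (K ⊔ span (ZMod 2) (Y : Set V) : Submodule (ZMod 2) V)) (hF : F ⊆ Y)
    (hBY : B ⊆ Y) :
    K ⊔ span (ZMod 2) ((A ∪ B : Finset V) : Set V) = K ⊔ span (ZMod 2) (Y : Set V) ↔
      K ⊔ span (ZMod 2) (A : Set V) = K ⊔ span (ZMod 2) (F : Set V) ∧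
        K ⊔ span (ZMod 2) ((F ∪ B : Finset V) : Set V) = K ⊔ span (ZMod 2) (Y : Set V) := by
  constructor
  · intro h
    refine ⟨?_, le_antisymm ?_ ?_⟩
    · refine Submodule.eq_of_le_of_finrank_le
        (sup_le_sup_left (span_mono (Finset.coe_subset.2 hA)) K) ?_
      have h1 := rankK_le K Y A B h
      omega
    · exact sup_le_sup_left (span_mono (Finset.coe_subset.2 (Finset.union_subset hF hBY))) K
    · rw [← h]
      exact sup_le_sup_left (span_mono (Finset.coe_subset.2
        (Finset.union_subset_union hA (Finset.Subset.refl B)))) K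
  · rintro ⟨h1, h2⟩
    rw [← h2, Finset.coe_union, Finset.coe_union, span_union, span_union, ← sup_assoc, h1,
      sup_assoc]

open Classical in
/-- the divided sum -/
noncomputable def dsK (K : Submodule (ZMod 2) V) (Y F : Finset V) (w : V → ℤ) (x : ℂ → V → ℂ)
    (z : ℂ) : ℂ :=
  ∑ A ∈ F.powerset, ∑ B ∈ (Y \ F).powerset,
    if Spans K Y (A ∪ B) then (∏ v ∈ A, (x z v - 1)) * ((∏ v ∈ B, dv (w v) z) *
      (z - 1) ^ (B.card + finrank (ZMod 2) (K ⊔ span (ZMod 2) (F : Set V) : Submodule (ZMod 2) V) -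
        finrank (ZMod 2) (K ⊔ span (ZMod 2) (Y : Set V) : Submodule (ZMod 2) V))) else 0

theorem PP_dsK (K : Submodule (ZMod 2) V) [FiniteDimensional (ZMod 2) K] (Y F : Finset V)
    (hF : F ⊆ Y) (w : V → ℤ) (x : ℂ → V → ℂ) (z : ℂ)
    (hx : ∀ v ∈ Y, v ∉ F → x z v = z ^ w v) :
    PP Y K (x z) *
        (z - 1) ^ finrank (ZMod 2) (K ⊔ span (ZMod 2) (F : Set V) : Submodule (ZMod 2) V) =
      (z - 1) ^ finrank (ZMod 2) (K ⊔ span (ZMod 2) (Y : Set V) : Submodule (ZMod 2) V) *
        dsK K Y F w x z := by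
  classical
  unfold PP dsK
  rw [sum_split Y F hF, Finset.sum_mul, Finset.mul_sum]
  refine Finset.sum_congr rfl fun A hA => ?_
  rw [Finset.sum_mul, Finset.mul_sum]
  refine Finset.sum_congr rfl fun B hB => ?_
  rw [Finset.mem_powerset] at hA hB
  have hdis : Disjoint A B := by
    rw [Finset.disjoint_left]
    intro v h1 h2
    exact (Finset.mem_sdiff.1 (hB h2)).2 (hA h1)
  by_cases hs : Spans K Y (A ∪ B)
  · rw [if_pos hs, if_pos hs, Finset.prod_union hdis]
    have h2 : ∏ v ∈ B, (x z v - 1) = (z - 1) ^ B.card * ∏ v ∈ B, dv (w v) z := by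
      rw [← Finset.prod_const, ← Finset.prod_mul_distrib]
      refine Finset.prod_congr rfl fun v hv => ?_
      have h3 := Finset.mem_sdiff.1 (hB hv)
      rw [hx v h3.1 h3.2, dv_mul]
    have h3 : finrank (ZMod 2) (K ⊔ span (ZMod 2) (Y : Set V) : Submodule (ZMod 2) V) ≤
        B.card + finrank (ZMod 2) (K ⊔ span (ZMod 2) (F : Set V) : Submodule (ZMod 2) V) := by
      have h4 := rankK_le K Y A B hs
      have h5 := rankK_mono K F A hA
      omega
    obtain ⟨k, hk⟩ := Nat.exists_eq_add_of_le h3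
    rw [h2, hk, Nat.add_sub_cancel_left]
    have h4 : (z - 1) ^ B.card *
        (z - 1) ^ finrank (ZMod 2) (K ⊔ span (ZMod 2) (F : Set V) : Submodule (ZMod 2) V) =
        (z - 1) ^ finrank (ZMod 2) (K ⊔ span (ZMod 2) (Y : Set V) : Submodule (ZMod 2) V) *
          (z - 1) ^ k := by
      rw [← pow_add, hk, pow_add]
    linear_combination (∏ v ∈ A, (x z v - 1)) * (∏ v ∈ B, dv (w v) z) * h4
  · rw [if_neg hs, if_neg hs, zero_mul, mul_zero]

theorem dsK_cont (K : Submodule (ZMod 2) V) (Y F : Finset V) (w : V → ℤ) (x : ℂ → V → ℂ)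
    (hx : ∀ v ∈ F, ContinuousAt (fun z => x z v) 1) : ContinuousAt (dsK K Y F w x) 1 := by
  classical
  unfold dsK
  refine tendsto_finsetSum _ fun A hA => tendsto_finsetSum _ fun B _ => ?_
  by_cases hs : Spans K Y (A ∪ B)
  · simp only [if_pos hs]
    refine Filter.Tendsto.mul (tendsto_finsetProd _ fun v hv => ?_)
      (Filter.Tendsto.mul (tendsto_finsetProd _ fun v _ => dv_cont (w v)) ?_)
    · exact (hx v (Finset.mem_powerset.1 hA hv)).sub continuousAt_const
    · exact (continuousAt_id.sub continuousAt_const).pow _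
  · simp only [if_neg hs]
    exact tendsto_const_nhds

theorem dsK_one (K : Submodule (ZMod 2) V) [FiniteDimensional (ZMod 2) K] (Y F : Finset V)
    (hF : F ⊆ Y) (w : V → ℤ) (x : ℂ → V → ℂ) :
    dsK K Y F w x 1 = PP F K (x 1) * (tauK K Y F w : ℂ) := by
  classical
  unfold dsK PP tauK
  rw [Int.cast_sum, Finset.sum_mul_sum]
  refine Finset.sum_congr rfl fun A hA => Finset.sum_congr rfl fun B hB => ?_
  rw [Finset.mem_powerset] at hA hB
  have hBY : B ⊆ Y := hB.trans Finset.sdiff_subset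
  by_cases hc : B.card + finrank (ZMod 2)
      (K ⊔ span (ZMod 2) (F : Set V) : Submodule (ZMod 2) V) =
      finrank (ZMod 2) (K ⊔ span (ZMod 2) (Y : Set V) : Submodule (ZMod 2) V)
  · have h1 : Spans K Y (A ∪ B) ↔ Spans K F A ∧
        K ⊔ span (ZMod 2) ((F ∪ B : Finset V) : Set V) = K ⊔ span (ZMod 2) (Y : Set V) :=
      spanK_iff K Y F A B hA hc hF hBY
    by_cases h2 : Spans K F A
    · by_cases h3 : K ⊔ span (ZMod 2) ((F ∪ B : Finset V) : Set V) =
          K ⊔ span (ZMod 2) (Y : Set V)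
      · rw [if_pos (h1.2 ⟨h2, h3⟩), if_pos h2, if_pos ⟨h3, hc⟩, hc, Nat.sub_self, pow_zero,
          mul_one, Int.cast_prod]
        congr 1
        exact Finset.prod_congr rfl fun v _ => dv_one _
      · rw [if_neg (fun h => h3 (h1.1 h).2), if_pos h2, if_neg (fun h => h3 h.1), Int.cast_zero,
          mul_zero]
    · rw [if_neg (fun h => h2 (h1.1 h).1), if_neg h2, zero_mul]
  · rw [if_neg (fun h : _ ∧ _ => hc h.2), Int.cast_zero, mul_zero]
    by_cases hs : Spans K Y (A ∪ B)
    · rw [if_pos hs]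
      have h3 : finrank (ZMod 2) (K ⊔ span (ZMod 2) (Y : Set V) : Submodule (ZMod 2) V) ≤
          B.card + finrank (ZMod 2)
            (K ⊔ span (ZMod 2) (F : Set V) : Submodule (ZMod 2) V) := by
        have h4 := rankK_le K Y A B hs
        have h5 := rankK_mono K F A hA
        omega
      have h4 : B.card + finrank (ZMod 2)
            (K ⊔ span (ZMod 2) (F : Set V) : Submodule (ZMod 2) V) -
          finrank (ZMod 2) (K ⊔ span (ZMod 2) (Y : Set V) : Submodule (ZMod 2) V) ≠ 0 := by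
        omega
      rw [sub_self, zero_pow h4, mul_zero, mul_zero]
    · rw [if_neg hs]

theorem leadK (K : Submodule (ZMod 2) V) [FiniteDimensional (ZMod 2) K] (Y F : Finset V)
    (hF : F ⊆ Y) (w : V → ℤ) (x : ℂ → V → ℂ) (hx : ∀ z, ∀ v ∈ Y, v ∉ F → x z v = z ^ w v)
    (hx1 : ∀ v ∈ F, ContinuousAt (fun z => x z v) 1)
    (h0 : ∀ z : ℂ, z ≠ 0 → PP Y K (x z) = 0) : PP F K (x 1) * (tauK K Y F w : ℂ) = 0 := by
  classical
  have h1 : ∀ᶠ z in nhdsWithin (1 : ℂ) {1}ᶜ, dsK K Y F w x z = 0 := by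
    have h2 : ∀ᶠ z in nhdsWithin (1 : ℂ) {1}ᶜ, z ≠ 0 :=
      (isOpen_ne.eventually_mem (show (1 : ℂ) ≠ 0 from one_ne_zero)).filter_mono
        nhdsWithin_le_nhds
    filter_upwards [h2, self_mem_nhdsWithin] with z hz hz1
    have h3 := PP_dsK K Y F hF w x z (hx z)
    rw [h0 z hz, zero_mul] at h3
    have h4 : z - 1 ≠ 0 := sub_ne_zero.2 hz1
    exact (mul_eq_zero.1 h3.symm).resolve_left (pow_ne_zero _ h4)
  have h2 : Filter.Tendsto (dsK K Y F w x) (nhdsWithin (1 : ℂ) {1}ᶜ)
      (nhds (dsK K Y F w x 1)) :=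
    (dsK_cont K Y F w x hx1).mono_left nhdsWithin_le_nhds
  have h3 : Filter.Tendsto (dsK K Y F w x) (nhdsWithin (1 : ℂ) {1}ᶜ) (nhds 0) :=
    tendsto_const_nhds.congr' (h1.mono fun z hz => hz.symm)
  have h4 := tendsto_nhds_unique h2 h3
  rw [dsK_one K Y F hF w x] at h4
  exact h4

/-! ### positivity -/

theorem PP_real (X : Finset V) (K : Submodule (ZMod 2) V) (x : V → ℝ) (y : V → ℂ)
    (h : ∀ v ∈ X, y v = (x v : ℂ)) :
    PP X K y = ((RR X K (K ⊔ span (ZMod 2) (X : Set V)) x : ℝ) : ℂ) := by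
  classical
  unfold PP RR
  rw [Complex.ofReal_sum]
  refine Finset.sum_congr rfl fun W hW => ?_
  rw [Finset.mem_powerset] at hW
  by_cases hc : Spans K X W
  · rw [if_pos hc, if_pos (show K ⊔ span (ZMod 2) (W : Set V) = _ from hc), Complex.ofReal_prod]
    refine Finset.prod_congr rfl fun v hv => ?_
    rw [h v (hW hv)]
    push_cast
    ring
  · rw [if_neg hc, if_neg (show ¬ K ⊔ span (ZMod 2) (W : Set V) = _ from hc),
      Complex.ofReal_zero]

/-- weights in `[-1, 0]` on different non-zero vectors -/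
theorem pos_box (X : Finset V) (h0 : (0 : V) ∉ X) (x : V → ℝ)
    (hx : ∀ v ∈ X, -1 ≤ x v ∧ x v ≤ 0) :
    0 < (-1 : ℝ) ^ finrank (ZMod 2) (span (ZMod 2) (X : Set V)) *
      RR X ⊥ (span (ZMod 2) (X : Set V)) x := by
  classical
  have hne : ∀ v ∈ X, v ≠ 0 := fun v hv h => h0 (h ▸ hv)
  have key : ∀ S : Finset V, 0 < (-1 : ℝ) ^ finrank (ZMod 2) (span (ZMod 2) (X : Set V)) *
      RR X ⊥ (span (ZMod 2) (X : Set V)) (fun v => if v ∈ S then x v else 0) := by
    intro S
    induction S using Finset.induction_on with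
    | empty =>
      have h1 := pos_RR X.card X rfl ⊥ (span (ZMod 2) (X : Set V)) inferInstance
        (fun v hv hv0 => hne v hv ((mem_bot _).1 hv0)) (bot_sup_eq _)
      rw [finrank_bot, zero_add] at h1
      have h2 : (fun v : V => if v ∈ (∅ : Finset V) then x v else 0) = fun _ => 0 := by
        funext v
        rw [if_neg (Finset.notMem_empty v)]
      rw [h2]
      exact h1
    | insert e S he ih =>
      by_cases heX : e ∈ X
      · have hX' : X = insert e (X.erase e) := (Finset.insert_erase heX).symm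
        have hsp : ∀ y : V → ℝ, RR X ⊥ (span (ZMod 2) (X : Set V)) y =
            RR (X.erase e) ⊥ (span (ZMod 2) (X : Set V)) y +
              (y e - 1) * RR (X.erase e) (span (ZMod 2) {e}) (span (ZMod 2) (X : Set V)) y := by
          intro y
          conv_lhs => rw [show RR X ⊥ (span (ZMod 2) (X : Set V)) y =
            RR (insert e (X.erase e)) ⊥ (span (ZMod 2) (X : Set V)) y by rw [← hX']]
          rw [RR_insert _ _ _ _ e (Finset.notMem_erase e X), bot_sup_eq]
        have hc : ∀ K' : Submodule (ZMod 2) V,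
            RR (X.erase e) K' (span (ZMod 2) (X : Set V))
              (fun v => if v ∈ insert e S then x v else 0) =
            RR (X.erase e) K' (span (ZMod 2) (X : Set V)) (fun v => if v ∈ S then x v else 0) :=
          fun K' => RR_congr _ _ _ _ _ fun v hv => by
            have hve : v ≠ e := Finset.ne_of_mem_erase hv
            by_cases hvS : v ∈ S
            · rw [if_pos hvS, if_pos (Finset.mem_insert_of_mem hvS)]
            · rw [if_neg hvS, if_neg]
              intro h
              rcases Finset.mem_insert.1 h with h | h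
              · exact hve h
              · exact hvS h
        rw [hsp] at ih ⊢
        rw [hc, hc, if_pos (Finset.mem_insert_self e S)]
        rw [if_neg he] at ih
        have hs := sign_RR (V := V) (X.erase e).card (X.erase e) rfl (span (ZMod 2) {e})
          (span (ZMod 2) (X : Set V)) (fun v => if v ∈ S then x v else 0) inferInstance
          (fun v hv hve => by
            rw [mem_span_singleton] at hve
            obtain ⟨c, hc⟩ := hve
            rcases zmod2_cases c with rfl | rfl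
            · rw [zero_smul] at hc
              exact hne v (Finset.mem_of_mem_erase hv) hc.symm
            · rw [one_smul] at hc
              exact Finset.ne_of_mem_erase hv hc.symm) (fun v hv => by
            by_cases hvS : v ∈ S
            · simp only [if_pos hvS]
              rw [abs_le]
              have h1 := hx v (Finset.mem_of_mem_erase hv)
              exact ⟨h1.1, by linarith⟩
            · simp only [if_neg hvS]
              norm_num)
        rw [finrank_span_singleton (hne e heX), add_comm, pow_succ] at hs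
        have h1 := (hx e heX).2
        nlinarith [mul_nonneg (neg_nonneg.2 h1) hs]
      · have h1 : RR X ⊥ (span (ZMod 2) (X : Set V))
            (fun v => if v ∈ insert e S then x v else 0) =
            RR X ⊥ (span (ZMod 2) (X : Set V)) (fun v => if v ∈ S then x v else 0) :=
          RR_congr _ _ _ _ _ fun v hv => by
            have hve : v ≠ e := fun h => heX (h ▸ hv)
            by_cases hvS : v ∈ S
            · rw [if_pos hvS, if_pos (Finset.mem_insert_of_mem hvS)]
            · rw [if_neg hvS, if_neg]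
              intro h
              rcases Finset.mem_insert.1 h with h | h
              · exact hve h
              · exact hvS h
        rw [h1]
        exact ih
  have h1 := key X
  have h2 : RR X ⊥ (span (ZMod 2) (X : Set V)) (fun v => if v ∈ X then x v else 0) =
      RR X ⊥ (span (ZMod 2) (X : Set V)) x :=
    RR_congr _ _ _ _ _ fun v hv => if_pos hv
  rw [h2] at h1
  exact h1

theorem PP_box_ne (X : Finset V) (h0 : (0 : V) ∉ X) (x : V → ℝ) (y : V → ℂ)
    (hx : ∀ v ∈ X, -1 ≤ x v ∧ x v ≤ 0) (h : ∀ v ∈ X, y v = (x v : ℂ)) : PP X ⊥ y ≠ 0 := by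
  rw [PP_real X ⊥ x y h, bot_sup_eq]
  intro h1
  have h2 := pos_box X h0 x hx
  rw [Complex.ofReal_eq_zero] at h1
  rw [h1, mul_zero] at h2
  exact lt_irrefl _ h2

theorem PP_zero_ne (X : Finset V) (K : Submodule (ZMod 2) V) [FiniteDimensional (ZMod 2) K]
    (y : V → ℂ) (hK : ∀ v ∈ X, v ∉ K) (h : ∀ v ∈ X, y v = 0) : PP X K y ≠ 0 := by
  rw [PP_real X K (fun _ => 0) y (fun v hv => by rw [h v hv, Complex.ofReal_zero])]
  intro h1
  have h2 := pos_RR X.card X rfl K (K ⊔ span (ZMod 2) (X : Set V)) inferInstance hK rfl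
  rw [Complex.ofReal_eq_zero] at h1
  rw [h1, mul_zero] at h2
  exact lt_irrefl _ h2

/-! ### the sets with a given intersection with `L` -/

/-- sums over the coefficients -/
theorem psi_zero (X : Finset V) (u : V → ℤ) (h : ¬ NZu X u) (ψ : Finset V → ℂ)
    (hψ : ∀ S ⊆ X, ∀ S' ⊆ X, su u S = su u S' → ψ S = ψ S') :
    ∑ S ∈ X.powerset, (cc X S : ℂ) * ψ S = 0 := by
  classical
  rw [← Finset.sum_fiberwise_of_maps_to (s := X.powerset)
    (t := X.powerset.image fun S => ∑ v ∈ S, u v) (g := fun S => ∑ v ∈ S, u v)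
    (fun S hS => Finset.mem_image_of_mem _ hS)]
  refine Finset.sum_eq_zero fun s hs => ?_
  rw [Finset.mem_image] at hs
  obtain ⟨S₀, hS₀, rfl⟩ := hs
  have h3 : ∀ S ∈ X.powerset.filter (fun S => ∑ v ∈ S, u v = ∑ v ∈ S₀, u v),
      (cc X S : ℂ) * ψ S = (cc X S : ℂ) * ψ S₀ := by
    intro S hS
    rw [Finset.mem_filter, Finset.mem_powerset] at hS
    rw [hψ S hS.1 S₀ (Finset.mem_powerset.1 hS₀) hS.2]
  rw [Finset.sum_congr rfl h3, ← Finset.sum_mul]
  have h4 := level_cc X u h (∑ v ∈ S₀, u v)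
  have h5 : (∑ S ∈ X.powerset with ∑ v ∈ S, u v = ∑ v ∈ S₀, u v, (cc X S : ℂ)) = 0 := by
    rw [← Int.cast_sum, h4, Int.cast_zero]
  rw [h5, zero_mul]

/-- the part of the polynomial with `S ∩ L = E` is the polynomial of a minor -/
theorem part_eq (X L E : Finset V) (hL : L ⊆ X) (hE : E ⊆ L) (x : V → ℂ) :
    ∑ S ∈ X.powerset, (cc X S : ℂ) * (if S ∩ L = E then ∏ v ∈ S \ L, x v else 0) =
      PP (X \ E) (span (ZMod 2) (E : Set V)) (fun v => if v ∈ L then 0 else x v) := by
  classical
  -- exchange the sums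
  have h1 : ∑ S ∈ X.powerset, (cc X S : ℂ) * (if S ∩ L = E then ∏ v ∈ S \ L, x v else 0) =
      ∑ W ∈ X.powerset, if Spans ⊥ X W then ∑ S ∈ W.powerset,
        (-1) ^ (W \ S).card * (if S ∩ L = E then ∏ v ∈ S \ L, x v else 0) else 0 := by
    unfold cc
    have h2 : ∀ S ∈ X.powerset,
        ((∑ W ∈ X.powerset, if Spans ⊥ X W ∧ S ⊆ W then (-1) ^ (W \ S).card else 0 : ℤ) : ℂ) *
          (if S ∩ L = E then ∏ v ∈ S \ L, x v else 0) =
        ∑ W ∈ X.powerset, if Spans ⊥ X W ∧ S ⊆ W then (-1) ^ (W \ S).card *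
          (if S ∩ L = E then ∏ v ∈ S \ L, x v else 0) else 0 := by
      intro S _
      rw [Int.cast_sum, Finset.sum_mul]
      refine Finset.sum_congr rfl fun W _ => ?_
      by_cases h3 : Spans ⊥ X W ∧ S ⊆ W
      · rw [if_pos h3, if_pos h3]
        push_cast
        rfl
      · rw [if_neg h3, if_neg h3, Int.cast_zero, zero_mul]
    rw [Finset.sum_congr rfl h2, Finset.sum_comm]
    refine Finset.sum_congr rfl fun W hW => ?_
    rw [Finset.mem_powerset] at hW
    by_cases h3 : Spans ⊥ X W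
    · rw [if_pos h3]
      refine (Finset.sum_subset (Finset.powerset_mono.2 hW) fun S _ hS => ?_).symm.trans
        (Finset.sum_congr rfl fun S hS => ?_)
      · rw [if_neg]
        exact fun h => hS (Finset.mem_powerset.2 h.2)
      · rw [if_pos ⟨h3, Finset.mem_powerset.1 hS⟩]
    · rw [if_neg h3]
      refine Finset.sum_eq_zero fun S _ => ?_
      rw [if_neg (fun h => h3 h.1)]
  rw [h1]
  -- the inner sum
  have h2 : ∀ W ∈ X.powerset, (∑ S ∈ W.powerset,
      (-1 : ℂ) ^ (W \ S).card * (if S ∩ L = E then ∏ v ∈ S \ L, x v else 0)) =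
      if E ⊆ W then ∏ v ∈ W \ E, ((if v ∈ L then 0 else x v) - 1) else 0 := by
    intro W _
    by_cases hEW : E ⊆ W
    · rw [if_pos hEW]
      have h3 : ∏ v ∈ W \ E, ((if v ∈ L then 0 else x v) - 1) =
          ∏ v ∈ W, ((if v ∈ E then 1 else if v ∈ L then 0 else x v) +
            (if v ∈ E then 0 else -1)) := by
        have h4 : W = (W \ E) ∪ E := (Finset.sdiff_union_of_subset hEW).symm
        conv_rhs => rw [h4]
        rw [Finset.prod_union Finset.sdiff_disjoint]
        have h5 : ∏ v ∈ E, ((if v ∈ E then (1 : ℂ) else if v ∈ L then 0 else x v) +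
            (if v ∈ E then 0 else -1)) = 1 := by
          refine Finset.prod_eq_one fun v hv => ?_
          rw [if_pos hv, if_pos hv, add_zero]
        rw [h5, mul_one]
        refine Finset.prod_congr rfl fun v hv => ?_
        have h6 := (Finset.mem_sdiff.1 hv).2
        rw [if_neg h6, if_neg h6]
        ring
      rw [h3, Finset.prod_add]
      refine Finset.sum_congr rfl fun S hS => ?_
      rw [Finset.mem_powerset] at hS
      by_cases hc : S ∩ L = E
      · rw [if_pos hc]
        have hES : E ⊆ S := by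
          rw [← hc]
          exact Finset.inter_subset_left
        have h4 : ∏ v ∈ W \ S, (if v ∈ E then (0 : ℂ) else -1) = (-1) ^ (W \ S).card := by
          rw [← Finset.prod_const]
          refine Finset.prod_congr rfl fun v hv => ?_
          rw [if_neg (fun h => (Finset.mem_sdiff.1 hv).2 (hES h))]
        have h5 : ∏ v ∈ S, (if v ∈ E then (1 : ℂ) else if v ∈ L then 0 else x v) =
            ∏ v ∈ S \ L, x v := by
          have h6 : S = (S \ L) ∪ (S ∩ L) := (Finset.sdiff_union_inter S L).symm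
          conv_lhs => rw [h6]
          rw [Finset.prod_union (Finset.disjoint_sdiff_inter S L), hc]
          have h7 : ∏ v ∈ E, (if v ∈ E then (1 : ℂ) else if v ∈ L then 0 else x v) = 1 :=
            Finset.prod_eq_one fun v hv => if_pos hv
          rw [h7, mul_one]
          refine Finset.prod_congr rfl fun v hv => ?_
          have h8 := (Finset.mem_sdiff.1 hv).2
          rw [if_neg (fun h => h8 (hE h)), if_neg h8]
        rw [h4, h5]
        ring
      · rw [if_neg hc, mul_zero]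
        -- a factor zero
        by_cases h4 : ∃ v ∈ S ∩ L, v ∉ E
        · obtain ⟨v, hv, hvE⟩ := h4
          rw [Finset.mem_inter] at hv
          have h5 : ∏ v ∈ S, (if v ∈ E then (1 : ℂ) else if v ∈ L then 0 else x v) = 0 :=
            Finset.prod_eq_zero hv.1 (by rw [if_neg hvE, if_pos hv.2])
          rw [h5, zero_mul]
        · push Not at h4
          have h5 : ∃ v ∈ E, v ∉ S := by
            by_contra h6
            push Not at h6
            exact hc (Finset.Subset.antisymm h4 fun v hv => Finset.mem_inter.2 ⟨h6 v hv, hE hv⟩)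
          obtain ⟨v, hv, hvS⟩ := h5
          have h6 : ∏ v ∈ W \ S, (if v ∈ E then (0 : ℂ) else -1) = 0 :=
            Finset.prod_eq_zero (Finset.mem_sdiff.2 ⟨hEW hv, hvS⟩) (if_pos hv)
          rw [h6, mul_zero]
    · rw [if_neg hEW]
      refine Finset.sum_eq_zero fun S hS => ?_
      rw [Finset.mem_powerset] at hS
      rw [if_neg, mul_zero]
      intro hc
      apply hEW
      rw [← hc]
      exact Finset.inter_subset_left.trans hS
  have h3 : ∀ W ∈ X.powerset, (if Spans ⊥ X W then ∑ S ∈ W.powerset,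
        (-1 : ℂ) ^ (W \ S).card * (if S ∩ L = E then ∏ v ∈ S \ L, x v else 0) else 0) =
      if Spans ⊥ X W ∧ E ⊆ W then ∏ v ∈ W \ E, ((if v ∈ L then 0 else x v) - 1) else 0 := by
    intro W hW
    rw [h2 W hW]
    by_cases h4 : Spans ⊥ X W
    · by_cases h5 : E ⊆ W
      · rw [if_pos h4, if_pos h5, if_pos ⟨h4, h5⟩]
      · rw [if_pos h4, if_neg h5, if_neg (fun h => h5 h.2)]
    · rw [if_neg h4, if_neg (fun h => h4 h.1)]
  rw [Finset.sum_congr rfl h3]
  unfold PP
  rw [sum_split X E (hE.trans hL), Finset.sum_eq_single E]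
  · refine Finset.sum_congr rfl fun B hB => ?_
    rw [Finset.mem_powerset] at hB
    have h4 : (E ∪ B) \ E = B := by
      rw [Finset.union_sdiff_left, Finset.sdiff_eq_self_iff_disjoint, Finset.disjoint_left]
      intro v hv
      exact (Finset.mem_sdiff.1 (hB hv)).2
    have h5 : (Spans ⊥ X (E ∪ B) ∧ E ⊆ E ∪ B) ↔ Spans (span (ZMod 2) (E : Set V)) (X \ E) B := by
      unfold Spans
      rw [bot_sup_eq, bot_sup_eq, Finset.coe_union, span_union, ← span_union, ← span_union,
        ← Finset.coe_union, ← Finset.coe_union, Finset.union_sdiff_of_subset (hE.trans hL)]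
      exact ⟨fun h => h.1, fun h => ⟨h, Finset.subset_union_left⟩⟩
    rw [h4]
    exact if_congr h5 rfl rfl
  · intro A hA hAE
    rw [Finset.mem_powerset] at hA
    refine Finset.sum_eq_zero fun B hB => ?_
    rw [Finset.mem_powerset] at hB
    rw [if_neg]
    rintro ⟨-, h⟩
    refine hAE (Finset.Subset.antisymm hA fun v hv => ?_)
    rcases Finset.mem_union.1 (h hv) with h6 | h6
    · exact h6
    · exact absurd hv (Finset.mem_sdiff.1 (hB h6)).2
  · intro h
    exact absurd (Finset.mem_powerset_self E) h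

/-- `tau` after the contraction -/
theorem tauK_eq (X F E : Finset V) (hF : F ⊆ X) (hE : E ⊆ F) (w : V → ℤ) :
    tauK (span (ZMod 2) (E : Set V)) (X \ E) (F \ E) w = tau X F w := by
  classical
  unfold tauK tau
  have h1 : (X \ E) \ (F \ E) = X \ F := by
    ext v
    rw [Finset.mem_sdiff, Finset.mem_sdiff, Finset.mem_sdiff, Finset.mem_sdiff]
    constructor
    · rintro ⟨⟨h1, h2⟩, h3⟩
      exact ⟨h1, fun h => h3 ⟨h, h2⟩⟩
    · rintro ⟨h1, h2⟩
      exact ⟨⟨h1, fun h => h2 (hE h)⟩, fun h => h2 h.1⟩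
  have h2 : ∀ B : Finset V, span (ZMod 2) (E : Set V) ⊔
      span (ZMod 2) ((F \ E ∪ B : Finset V) : Set V) =
      span (ZMod 2) ((F ∪ B : Finset V) : Set V) := by
    intro B
    rw [← span_union, ← Finset.coe_union, ← Finset.union_assoc,
      Finset.union_sdiff_of_subset hE]
  have h3 : span (ZMod 2) (E : Set V) ⊔ span (ZMod 2) ((X \ E : Finset V) : Set V) =
      span (ZMod 2) (X : Set V) := by
    rw [← span_union, ← Finset.coe_union, Finset.union_sdiff_of_subset (hE.trans hF)]
  have h4 : span (ZMod 2) (E : Set V) ⊔ span (ZMod 2) ((F \ E : Finset V) : Set V) =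
      span (ZMod 2) (F : Set V) := by
    rw [← span_union, ← Finset.coe_union, Finset.union_sdiff_of_subset hE]
  rw [h1, h3, h4]
  refine Finset.sum_congr rfl fun B _ => ?_
  rw [h2]

/-- **Level form** -/
theorem level_large (X : Finset V) (h0 : (0 : V) ∉ X) (u : V → ℤ) (h : ¬ NZu X u)
    (L J E : Finset V) (hL : L ⊆ X) (hJ : J ⊆ X \ L) (hE : E ⊆ L) (w : V → ℤ)
    (ht : tau X (L ∪ J) w ≠ 0)
    (hcase : (J = ∅ ∧ ∀ v ∈ L, v ∉ E → v ∉ span (ZMod 2) (E : Set V)) ∨ E = ∅) :
    ∃ S ⊆ X, ∃ S' ⊆ X, su u S = su u S' ∧ S ∩ L = E ∧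
      (S' ∩ L ≠ E ∨ su w (S \ L) ≠ su w (S' \ L) ∨ Odd ((S ∩ J).card + (S' ∩ J).card)) := by
  classical
  by_contra hno
  push Not at hno
  have hJX : J ⊆ X := hJ.trans Finset.sdiff_subset
  have hJL : ∀ v ∈ J, v ∉ L := fun v hv => (Finset.mem_sdiff.1 (hJ hv)).2
  obtain ⟨x, hx⟩ : ∃ x : ℂ → V → ℂ, x = fun z v => if v ∈ L then 0 else wt J w z v := ⟨_, rfl⟩
  have hzero : ∀ z : ℂ, z ≠ 0 → PP (X \ E) (span (ZMod 2) (E : Set V)) (x z) = 0 := by
    intro z hz
    rw [hx]
    beta_reduce
    rw [← part_eq X L E hL hE (wt J w z)]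
    have hval : ∀ S : Finset V, ∏ v ∈ S \ L, wt J w z v =
        (-1) ^ (S ∩ J).card * z ^ su w (S \ L) := by
      intro S
      rw [prod_wt J w z hz]
      congr 3
      ext v
      rw [Finset.mem_inter, Finset.mem_inter, Finset.mem_sdiff]
      exact ⟨fun h => ⟨h.1.1, h.2⟩, fun h => ⟨⟨h.1, hJL v h.2⟩, h.2⟩⟩
    refine psi_zero X u h _ fun S hS S' hS' hsu => ?_
    by_cases h1 : S ∩ L = E
    · obtain ⟨h2, h3, h4⟩ := hno S hS S' hS' hsu h1
      rw [if_pos h1, if_pos h2, hval, hval, h3]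
      congr 1
      rw [Nat.not_odd_iff_even, Nat.even_add] at h4
      by_cases h6 : Even (S ∩ J).card
      · rw [h6.neg_one_pow, (h4.1 h6).neg_one_pow]
      · rw [(Nat.not_even_iff_odd.1 h6).neg_one_pow,
          (Nat.not_even_iff_odd.1 fun h7 => h6 (h4.2 h7)).neg_one_pow]
    · by_cases h2 : S' ∩ L = E
      · exact absurd (hno S' hS' S hS hsu.symm h2).1 h1
      · rw [if_neg h1, if_neg h2]
  have hFY : (L ∪ J) \ E ⊆ X \ E :=
    Finset.sdiff_subset_sdiff (Finset.union_subset hL hJX) (Finset.Subset.refl E)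
  have hlead := leadK (span (ZMod 2) (E : Set V)) (X \ E) ((L ∪ J) \ E) hFY w x
    (fun z v hv hvF => by
      rw [Finset.mem_sdiff] at hv
      have h1 : v ∉ L ∪ J := fun h => hvF (Finset.mem_sdiff.2 ⟨h, hv.2⟩)
      rw [Finset.mem_union, not_or] at h1
      rw [hx]
      beta_reduce
      rw [if_neg h1.1]
      unfold wt
      rw [if_neg h1.2, one_mul])
    (fun v _ => by
      rw [hx]
      beta_reduce
      by_cases hvL : v ∈ L
      · simp only [if_pos hvL]
        exact continuousAt_const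
      · simp only [if_neg hvL]
        unfold wt
        exact continuousAt_const.mul (continuousAt_zpow₀ _ _ (Or.inl one_ne_zero)))
    hzero
  rw [tauK_eq X (L ∪ J) E (Finset.union_subset hL hJX)
    (hE.trans Finset.subset_union_left)] at hlead
  have hval1 : ∀ v ∈ L ∪ J, x 1 v = (((if v ∈ L then 0 else -1 : ℝ)) : ℂ) := by
    intro v hv
    rw [hx]
    beta_reduce
    by_cases hvL : v ∈ L
    · rw [if_pos hvL, if_pos hvL, Complex.ofReal_zero]
    · have hvJ : v ∈ J := by
        rcases Finset.mem_union.1 hv with h1 | h1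
        · exact absurd h1 hvL
        · exact h1
      rw [if_neg hvL, if_neg hvL]
      unfold wt
      rw [if_pos hvJ, one_zpow, mul_one]
      push_cast
      rfl
  rcases mul_eq_zero.1 hlead with h1 | h1
  · rcases hcase with ⟨hJ0, hc⟩ | hE0
    · refine PP_zero_ne ((L ∪ J) \ E) (span (ZMod 2) (E : Set V)) (x 1) ?_ ?_ h1
      · intro v hv
        rw [Finset.mem_sdiff, hJ0, Finset.union_empty] at hv
        exact hc v hv.1 hv.2
      · intro v hv
        rw [Finset.mem_sdiff] at hv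
        rw [hval1 v hv.1]
        rw [hJ0, Finset.union_empty] at hv
        rw [if_pos hv.1, Complex.ofReal_zero]
    · rw [hE0, Finset.sdiff_empty, Finset.coe_empty, span_empty] at h1
      refine PP_box_ne (L ∪ J) (fun h2 => h0 (Finset.union_subset hL hJX h2))
        (fun v => if v ∈ L then 0 else -1) (x 1) (fun v _ => ?_) hval1 h1
      by_cases hvL : v ∈ L
      · simp only [if_pos hvL]
        norm_num
      · simp only [if_neg hvL]
        norm_num
  · exact ht (by exact_mod_cast h1)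

/-- a set which contains the positive, respectively negative, part of `L` differs from all other sets
by a long relation -/
theorem far_of_big (X : Finset V) (a : V → ℤ) (T : ℕ) (L : Finset V) (hL : L ⊆ X)
    (hbig : ∀ i ∈ L, (T : ℤ) + ∑ j ∈ X \ L, |a j| ≤ |a i|) (ε : ℤ) (hε : ε = 1 ∨ ε = -1)
    (E : Finset V) (hE : E ⊆ L) (hE1 : ∀ v ∈ E, 0 ≤ ε * a v)
    (hE2 : ∀ v ∈ L, v ∉ E → ε * a v ≤ 0) (S S' : Finset V) (hS : S ⊆ X) (hS' : S' ⊆ X)
    (h1 : S ∩ L = E) (h2 : S' ∩ L ≠ E) :
    (T : ℤ) ≤ |∑ v ∈ S, a v - ∑ v ∈ S', a v| := by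
  classical
  -- the difference is the sum over `L` and the sum over the rest
  have hsp : ∀ U : Finset V, U ⊆ X → ∑ v ∈ U, a v =
      ∑ v ∈ U ∩ L, a v + ∑ v ∈ U \ L, a v := by
    intro U _
    conv_lhs => rw [← Finset.sdiff_union_inter U L]
    rw [Finset.sum_union (Finset.disjoint_sdiff_inter U L), add_comm]
  have hrest : |∑ v ∈ S \ L, a v - ∑ v ∈ S' \ L, a v| ≤ ∑ j ∈ X \ L, |a j| := by
    have e1 : ∀ U : Finset V, U ⊆ X → ∑ v ∈ U \ L, a v =
        ∑ v ∈ X \ L, if v ∈ U then a v else 0 := by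
      intro U hU
      rw [← Finset.sum_filter]
      refine Finset.sum_congr ?_ fun _ _ => rfl
      ext v
      rw [Finset.mem_filter, Finset.mem_sdiff, Finset.mem_sdiff]
      exact ⟨fun h => ⟨⟨hU h.1, h.2⟩, h.1⟩, fun h => ⟨h.2, h.1.2⟩⟩
    rw [e1 S hS, e1 S' hS', ← Finset.sum_sub_distrib]
    refine (Finset.abs_sum_le_sum_abs _ _).trans (Finset.sum_le_sum fun v _ => ?_)
    by_cases h3 : v ∈ S <;> by_cases h4 : v ∈ S'
    · rw [if_pos h3, if_pos h4, sub_self, abs_zero]
      exact abs_nonneg _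
    · rw [if_pos h3, if_neg h4, sub_zero]
    · rw [if_neg h3, if_pos h4, zero_sub, abs_neg]
    · rw [if_neg h3, if_neg h4, sub_self, abs_zero]
      exact abs_nonneg _
  -- the part in `L`
  have hbigL : ∃ i ∈ L, |a i| ≤ ε * (∑ v ∈ S ∩ L, a v - ∑ v ∈ S' ∩ L, a v) := by
    have e1 : ∀ U : Finset V, ε * ∑ v ∈ U ∩ L, a v = ∑ v ∈ L, if v ∈ U then ε * a v else 0 := by
      intro U
      rw [Finset.mul_sum, ← Finset.sum_filter]
      refine Finset.sum_congr ?_ fun _ _ => rfl
      ext v
      rw [Finset.mem_filter, Finset.mem_inter]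
      exact and_comm
    have e2 : ε * (∑ v ∈ S ∩ L, a v - ∑ v ∈ S' ∩ L, a v) =
        ∑ v ∈ L, ((if v ∈ S then ε * a v else 0) - (if v ∈ S' then ε * a v else 0)) := by
      rw [mul_sub, e1, e1, Finset.sum_sub_distrib]
    have habs : ∀ v, |ε * a v| = |a v| := by
      intro v
      rcases hε with h | h
      · rw [h, one_mul]
      · rw [h, neg_one_mul, abs_neg]
    have e3 : ∀ v ∈ L, 0 ≤ (if v ∈ S then ε * a v else 0) - (if v ∈ S' then ε * a v else 0) := by
      intro v hv
      by_cases hvE : v ∈ E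
      · have hvS : v ∈ S := by
          rw [← h1] at hvE
          exact (Finset.mem_inter.1 hvE).1
        have h3 := hE1 v hvE
        by_cases h4 : v ∈ S'
        · rw [if_pos hvS, if_pos h4, sub_self]
        · rw [if_pos hvS, if_neg h4, sub_zero]
          exact h3
      · have hvS : v ∉ S := by
          intro h
          apply hvE
          rw [← h1]
          exact Finset.mem_inter.2 ⟨h, hv⟩
        have h3 := hE2 v hv hvE
        by_cases h4 : v ∈ S'
        · rw [if_neg hvS, if_pos h4, zero_sub]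
          omega
        · rw [if_neg hvS, if_neg h4, sub_self]
    have e4 : ∃ i ∈ L, (i ∈ E ∧ i ∉ S') ∨ (i ∉ E ∧ i ∈ S') := by
      by_contra hno
      push Not at hno
      apply h2
      ext v
      rw [Finset.mem_inter]
      constructor
      · rintro ⟨h3, h4⟩
        by_contra h5
        exact (hno v h4).2 h5 h3
      · intro h3
        refine ⟨?_, hE h3⟩
        by_contra h5
        exact h5 ((hno v (hE h3)).1 h3)
    obtain ⟨i, hi, hiE⟩ := e4
    refine ⟨i, hi, ?_⟩
    rw [e2]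
    refine le_trans ?_ (Finset.single_le_sum e3 hi)
    rcases hiE with ⟨h3, h4⟩ | ⟨h3, h4⟩
    · have hiS : i ∈ S := by
        rw [← h1] at h3
        exact (Finset.mem_inter.1 h3).1
      rw [if_pos hiS, if_neg h4, sub_zero, ← habs, abs_of_nonneg (hE1 i h3)]
    · have hiS : i ∉ S := by
        intro h
        apply h3
        rw [← h1]
        exact Finset.mem_inter.2 ⟨h, hi⟩
      rw [if_neg hiS, if_pos h4, zero_sub, ← habs, abs_of_nonpos (hE2 i hi h3)]
  obtain ⟨i, hi, hi2⟩ := hbigL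
  have h3 := hbig i hi
  rw [hsp S hS, hsp S' hS']
  have h4 : ∑ v ∈ S ∩ L, a v + ∑ v ∈ S \ L, a v - (∑ v ∈ S' ∩ L, a v + ∑ v ∈ S' \ L, a v) =
      (∑ v ∈ S ∩ L, a v - ∑ v ∈ S' ∩ L, a v) + (∑ v ∈ S \ L, a v - ∑ v ∈ S' \ L, a v) := by
    ring
  rw [h4]
  have h5 : |a i| ≤ |∑ v ∈ S ∩ L, a v - ∑ v ∈ S' ∩ L, a v| := by
    refine hi2.trans ((le_abs_self _).trans ?_)
    rcases hε with h | h
    · rw [h, one_mul]
    · rw [h, neg_one_mul, abs_neg]
  have h6 := abs_sub_abs_le_abs_sub (∑ v ∈ S ∩ L, a v - ∑ v ∈ S' ∩ L, a v)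
    (-(∑ v ∈ S \ L, a v - ∑ v ∈ S' \ L, a v))
  rw [abs_neg, sub_neg_eq_add] at h6
  linarith

/-- **Large classes, signs and weights.** -/
theorem large_false (X : Finset V) (h0 : (0 : V) ∉ X) (a u : V → ℤ) (C T : ℕ)
    (hF : Follows X a u C T) (h : ¬ NZu X u) (L J : Finset V) (hL : L ⊆ X) (hJ : J ⊆ X \ L)
    (w : V → ℤ) (hbig : ∀ i ∈ L, (T : ℤ) + ∑ j ∈ X \ L, |a j| ≤ |a i|)
    (hw : ∀ d, Small X a T d → (∀ v ∈ L, d v = 0) →
      ∑ v ∈ X, d v * w v = 0 ∧ Even (∑ v ∈ J, d v))
    (ht : tau X (L ∪ J) w ≠ 0)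
    (hcase : ∃ ε : ℤ, (ε = 1 ∨ ε = -1) ∧ ((J = ∅ ∧ ∀ v ∈ L, ε * a v < 0 →
        v ∉ span (ZMod 2) {x | x ∈ L ∧ 0 ≤ ε * a x}) ∨ ∀ v ∈ L, ε * a v ≤ 0)) : False := by
  classical
  obtain ⟨ε, hε, hcase⟩ := hcase
  obtain ⟨E, hE, hE1, hE2, hcE⟩ : ∃ E ⊆ L, (∀ v ∈ E, 0 ≤ ε * a v) ∧
      (∀ v ∈ L, v ∉ E → ε * a v ≤ 0) ∧
      ((J = ∅ ∧ ∀ v ∈ L, v ∉ E → v ∉ span (ZMod 2) (E : Set V)) ∨ E = ∅) := by
    rcases hcase with ⟨h1, h2⟩ | h1
    · refine ⟨L.filter fun v => 0 ≤ ε * a v, Finset.filter_subset _ _,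
        fun v hv => (Finset.mem_filter.1 hv).2, fun v hv hvE => ?_, Or.inl ⟨h1, ?_⟩⟩
      · by_contra h3
        exact hvE (Finset.mem_filter.2 ⟨hv, le_of_lt (not_le.1 h3)⟩)
      · intro v hv hvE
        rw [Finset.coe_filter]
        refine h2 v hv ?_
        by_contra h3
        exact hvE (Finset.mem_filter.2 ⟨hv, not_lt.1 h3⟩)
    · exact ⟨∅, Finset.empty_subset _, fun v hv => absurd hv (Finset.notMem_empty v),
        fun v hv _ => h1 v hv, Or.inr rfl⟩
  obtain ⟨S, hS, S', hS', hsu, h1, h2⟩ := level_large X h0 u h L J E hL hJ hE w ht hcE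
  by_cases h3 : S' ∩ L = E
  · have hrel := rel_of_su X u S S' hS hS' hsu
    have hsm := small_of_rel X a u C T hF _ hrel
    have hdL : ∀ v ∈ L, ic S v - ic S' v = 0 := by
      intro v hv
      by_cases hvE : v ∈ E
      · have h4 : v ∈ S := by
          rw [← h1] at hvE
          exact (Finset.mem_inter.1 hvE).1
        have h5 : v ∈ S' := by
          rw [← h3] at hvE
          exact (Finset.mem_inter.1 hvE).1
        rw [ic_mem S v h4, ic_mem S' v h5, sub_self]
      · have h4 : v ∉ S := by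
          intro h
          apply hvE
          rw [← h1]
          exact Finset.mem_inter.2 ⟨h, hv⟩
        have h5 : v ∉ S' := by
          intro h
          apply hvE
          rw [← h3]
          exact Finset.mem_inter.2 ⟨h, hv⟩
        rw [ic_not S v h4, ic_not S' v h5, sub_self]
    obtain ⟨h4, h5⟩ := hw _ hsm hdL
    rcases h2 with h2 | h2 | h2
    · exact h2 h3
    · apply h2
      have e1 : ∀ U : Finset V, U ⊆ X → su w U = su w (U ∩ L) + su w (U \ L) := by
        intro U _
        unfold su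
        conv_lhs => rw [← Finset.sdiff_union_inter U L]
        rw [Finset.sum_union (Finset.disjoint_sdiff_inter U L), add_comm]
      simp only [sub_mul] at h4
      rw [Finset.sum_sub_distrib, ← su_ic X S hS w, ← su_ic X S' hS' w, e1 S hS, e1 S' hS', h1,
        h3] at h4
      omega
    · rw [Finset.sum_sub_distrib, sum_ic, sum_ic, Int.even_sub, Int.even_coe_nat,
        Int.even_coe_nat] at h5
      rw [Nat.odd_add] at h2
      by_cases h6 : Odd (S ∩ J).card
      · exact (Nat.not_even_iff_odd.2 h6) (h5.2 (h2.1 h6))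
      · exact h6 (h2.2 (h5.1 (Nat.not_odd_iff_even.1 h6)))
  · exact (hF S hS S' hS').1
      (far_of_big X a T L hL hbig ε hε E hE hE1 hE2 S S' hS hS' h1 h3) hsu

/-- **Signs and weights** (`L = ∅`) -/
theorem weight_false (X : Finset V) (a u : V → ℤ) (C T : ℕ)
    (hF : Follows X a u C T) (h : ¬ NZu X u) (J : Finset V) (hJ : J ⊆ X) (w : V → ℤ)
    (hw : ∀ d, Small X a T d → ∑ v ∈ X, d v * w v = 0 ∧ Even (∑ v ∈ J, d v))
    (hpos : ∀ v ∈ X, v ∉ J → 0 ≤ w v)
    (hs : span (ZMod 2) {v | v ∈ X ∧ (v ∈ J ∨ 0 < w v)} = span (ZMod 2) (X : Set V)) :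
    False := by
  obtain ⟨d, hd, h1⟩ := follows_lead X a u C T hF h J hJ w (tau_pos X J w hJ hpos hs).ne'
  obtain ⟨h2, h3⟩ := hw d hd
  rcases h1 with h1 | h1
  · exact h1 h2
  · exact (Int.not_even_iff_odd.2 h1) h3

/-- **Large part adequate on one side, the rest without weights** -/
theorem adequate_false (X : Finset V) (h0 : (0 : V) ∉ X) (a u : V → ℤ) (C T : ℕ)
    (hF : Follows X a u C T) (h : ¬ NZu X u) (L : Finset V) (hL : L ⊆ X)
    (hbig : ∀ i ∈ L, (T : ℤ) + ∑ j ∈ X \ L, |a j| ≤ |a i|)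
    (hs : span (ZMod 2) (L : Set V) = span (ZMod 2) (X : Set V))
    (hcase : ∃ ε : ℤ, (ε = 1 ∨ ε = -1) ∧ ∀ v ∈ L, ε * a v < 0 →
        v ∉ span (ZMod 2) {x | x ∈ L ∧ 0 ≤ ε * a x}) : False := by
  classical
  obtain ⟨ε, hε, hc⟩ := hcase
  refine large_false X h0 a u C T hF h L ∅ hL (Finset.empty_subset _) (fun _ => 0) hbig
    (fun d _ _ => ⟨by simp, by simp⟩) ?_ ⟨ε, hε, Or.inl ⟨rfl, hc⟩⟩
  rw [Finset.union_empty]
  refine (tau_pos X L (fun _ => 0) hL (fun _ _ _ => le_refl 0) ?_).ne'
  refine le_antisymm (span_mono fun v hv => hv.1) ?_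
  rw [← hs]
  refine span_mono fun v hv => ?_
  exact ⟨hL hv, Or.inl hv⟩

end Pool.Agent.TRJ
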