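import Pool.Agent.NHT.St3
import Pool.Agent.TRJ.Large

/-!
# TRJ, module Weighted: the modules X1, X2, X3 of NHT, version 3 (helper16)
-/

set_option autoImplicit false
set_option linter.unusedSectionVars false

open Submodule Module

namespace Pool.Agent.TRJ

open Pool.Agent.SPT Pool.Agent.SPT.Rel Pool.Agent.SPT.Odd Pool.Agent.NHT Pool.Agent.TRA
open Pool.Agent.TRP

/-- **Module X1** -/
theorem thm_Forest : St_Forest := by
  classical
  intro ι V _ _ _ _ Q Cyc r hB x x' hx
  have himg : ∀ F ⊆ Q, (Q \ F).image r = Q.image r \ F.image r := by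
    intro F hF
    ext v
    rw [Finset.mem_image, Finset.mem_sdiff]
    constructor
    · rintro ⟨i, hi, rfl⟩
      rw [Finset.mem_sdiff] at hi
      refine ⟨Finset.mem_image_of_mem r hi.1, fun h => ?_⟩
      obtain ⟨j, hj, hji⟩ := Finset.mem_image.1 h
      exact hi.2 (hB.inj (hF hj) hi.1 hji ▸ hj)
    · rintro ⟨h1, h2⟩
      obtain ⟨i, hi, rfl⟩ := Finset.mem_image.1 h1
      exact ⟨i, Finset.mem_sdiff.2 ⟨hi, fun h => h2 (Finset.mem_image_of_mem r h)⟩, rfl⟩
  have hiff : ∀ F ⊆ Q, (Spans ⊥ (Q.image r) ((Q \ F).image r) ↔ ¬ Cyc F) := by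
    intro F hF
    unfold Spans
    rw [bot_sup_eq, bot_sup_eq, hB.co F hF, himg F hF]
    rfl
  have hmem : ∀ F : Finset ι, F ∈ Q.powerset.filter (fun F => ¬ Cyc F) ↔ F ⊆ Q ∧ ¬ Cyc F := by
    intro F
    rw [Finset.mem_filter, Finset.mem_powerset]
  unfold PP forestSum
  rw [← Finset.sum_filter]
  symm
  refine Finset.sum_nbij (fun F => (Q \ F).image r) ?_ ?_ ?_ ?_
  · intro F hF
    rw [Finset.mem_filter, Finset.mem_powerset] at hF ⊢
    exact ⟨Finset.image_subset_image Finset.sdiff_subset, (hiff F hF.1).2 hF.2⟩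
  · intro F hF F' hF' h
    rw [Finset.mem_coe, Finset.mem_filter, Finset.mem_powerset] at hF hF'
    have h1 : Q \ F = Q \ F' :=
      (Finset.image_injOn_powerset_of_injOn hB.inj)
        (Finset.mem_coe.2 (Finset.mem_powerset.2 Finset.sdiff_subset))
        (Finset.mem_coe.2 (Finset.mem_powerset.2 Finset.sdiff_subset)) h
    rw [← Finset.sdiff_sdiff_eq_self hF.1, ← Finset.sdiff_sdiff_eq_self hF'.1, h1]
  · intro W hW
    rw [Finset.mem_coe, Finset.mem_filter, Finset.mem_powerset] at hW
    obtain ⟨Y, hY, rfl⟩ := Finset.subset_image_iff.1 (Finset.coe_subset.1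
      (show ((W : Finset V) : Set V) ⊆ ((Q.image r : Finset V) : Set V) from
        Finset.coe_subset.2 hW.1))
    have hYQ : Y ⊆ Q := Finset.coe_subset.1 (by exact_mod_cast hY)
    refine ⟨Q \ Y, ?_, ?_⟩
    · rw [Finset.mem_coe, Finset.mem_filter, Finset.mem_powerset]
      refine ⟨Finset.sdiff_subset, (hiff _ Finset.sdiff_subset).1 ?_⟩
      rw [Finset.sdiff_sdiff_eq_self hYQ]
      exact hW.2
    · show (Q \ (Q \ Y)).image r = Y.image r
      rw [Finset.sdiff_sdiff_eq_self hYQ]
  · intro F hF
    rw [Finset.mem_filter, Finset.mem_powerset] at hF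
    rw [Finset.prod_image (hB.inj.mono (Finset.coe_subset.2 Finset.sdiff_subset))]
    refine Finset.prod_congr ?_ fun i hi => ?_
    · ext i
      simp only [Finset.mem_sdiff]
    · have hiQ : i ∈ Q := by
        simp only [Finset.mem_sdiff] at hi
        exact hi.1
      rw [hx i hiQ]

/-- weights in `[-1, 1)` on different non-zero vectors -/
theorem pos_box' {V : Type} [AddCommGroup V] [Module (ZMod 2) V] [DecidableEq V] (X : Finset V)
    (h0 : (0 : V) ∉ X) (x : V → ℝ) (hx : ∀ v ∈ X, -1 ≤ x v ∧ x v < 1) :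
    0 < (-1 : ℝ) ^ finrank (ZMod 2) (span (ZMod 2) (X : Set V)) *
      RR X ⊥ (span (ZMod 2) (X : Set V)) x := by
  classical
  have hne : ∀ v ∈ X, v ≠ 0 := fun v hv h => h0 (h ▸ hv)
  have key : ∀ S : Finset V, 0 < (-1 : ℝ) ^ finrank (ZMod 2) (span (ZMod 2) (X : Set V)) *
      RR X ⊥ (span (ZMod 2) (X : Set V)) (fun v => if v ∈ S then x v else 0) := by
    intro S
    induction S using Finset.induction_on with
    | empty =>
      have h1 := pos_RR X.card X rfl ⊥ (span (ZMod 2) (X : Set V)) inferInstance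
        (fun v hv hv0 => hne v hv ((mem_bot _).1 hv0)) (bot_sup_eq _)
      rw [finrank_bot, zero_add] at h1
      have h2 : (fun v : V => if v ∈ (∅ : Finset V) then x v else 0) = fun _ => 0 := by
        funext v
        rw [if_neg (Finset.notMem_empty v)]
      rw [h2]
      exact h1
    | insert e S he ih =>
      by_cases heX : e ∈ X
      · have hX' : X = insert e (X.erase e) := (Finset.insert_erase heX).symm
        have hsp : ∀ y : V → ℝ, RR X ⊥ (span (ZMod 2) (X : Set V)) y =
            RR (X.erase e) ⊥ (span (ZMod 2) (X : Set V)) y +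
              (y e - 1) * RR (X.erase e) (span (ZMod 2) {e}) (span (ZMod 2) (X : Set V)) y := by
          intro y
          conv_lhs => rw [show RR X ⊥ (span (ZMod 2) (X : Set V)) y =
            RR (insert e (X.erase e)) ⊥ (span (ZMod 2) (X : Set V)) y by rw [← hX']]
          rw [RR_insert _ _ _ _ e (Finset.notMem_erase e X), bot_sup_eq]
        have hc : ∀ K' : Submodule (ZMod 2) V,
            RR (X.erase e) K' (span (ZMod 2) (X : Set V))
              (fun v => if v ∈ insert e S then x v else 0) =
            RR (X.erase e) K' (span (ZMod 2) (X : Set V)) (fun v => if v ∈ S then x v else 0) :=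
          fun K' => RR_congr _ _ _ _ _ fun v hv => by
            have hve : v ≠ e := Finset.ne_of_mem_erase hv
            by_cases hvS : v ∈ S
            · rw [if_pos hvS, if_pos (Finset.mem_insert_of_mem hvS)]
            · rw [if_neg hvS, if_neg]
              intro h
              rcases Finset.mem_insert.1 h with h | h
              · exact hve h
              · exact hvS h
        have hab : ∀ v ∈ X.erase e, |(if v ∈ S then x v else 0)| ≤ 1 := by
          intro v hv
          by_cases hvS : v ∈ S
          · rw [if_pos hvS, abs_le]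
            have h1 := hx v (Finset.mem_of_mem_erase hv)
            exact ⟨h1.1, h1.2.le⟩
          · rw [if_neg hvS]
            norm_num
        rw [hsp] at ih ⊢
        rw [hc, hc, if_pos (Finset.mem_insert_self e S)]
        rw [if_neg he] at ih
        have hs := sign_RR (V := V) (X.erase e).card (X.erase e) rfl (span (ZMod 2) {e})
          (span (ZMod 2) (X : Set V)) (fun v => if v ∈ S then x v else 0) inferInstance
          (fun v hv hve => by
            rw [mem_span_singleton] at hve
            obtain ⟨c, hc⟩ := hve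
            rcases zmod2_cases c with rfl | rfl
            · rw [zero_smul] at hc
              exact hne v (Finset.mem_of_mem_erase hv) hc.symm
            · rw [one_smul] at hc
              exact Finset.ne_of_mem_erase hv hc.symm) hab
        have hs0 := sign_RR (V := V) (X.erase e).card (X.erase e) rfl ⊥
          (span (ZMod 2) (X : Set V)) (fun v => if v ∈ S then x v else 0) inferInstance
          (fun v hv hv0 => hne v (Finset.mem_of_mem_erase hv) ((mem_bot _).1 hv0)) hab
        rw [finrank_span_singleton (hne e heX), add_comm, pow_succ] at hs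
        rw [finrank_bot, zero_add] at hs0
        have h1 := (hx e heX).2
        obtain ⟨s, hs'⟩ : ∃ s : ℝ, s = (-1 : ℝ) ^ finrank (ZMod 2) (span (ZMod 2) (X : Set V)) :=
          ⟨_, rfl⟩
        obtain ⟨A, hA⟩ : ∃ A : ℝ, A = RR (X.erase e) ⊥ (span (ZMod 2) (X : Set V))
          (fun v => if v ∈ S then x v else 0) := ⟨_, rfl⟩
        obtain ⟨B, hB⟩ : ∃ B : ℝ, B = RR (X.erase e) (span (ZMod 2) {e})
          (span (ZMod 2) (X : Set V)) (fun v => if v ∈ S then x v else 0) := ⟨_, rfl⟩
        rw [← hs', ← hA, ← hB] at ih ⊢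
        rw [← hs', ← hB] at hs
        rw [← hs', ← hA] at hs0
        have h2 : 0 ≤ -(s * B) := by linarith
        have h3 : 0 < s * A + -(s * B) := by linarith
        have h4 : s * (A + (x e - 1) * B) = s * A + (1 - x e) * -(s * B) := by ring
        rw [h4]
        rcases lt_or_eq_of_le hs0 with h5 | h5
        · have h6 := mul_nonneg (sub_nonneg.2 h1.le) h2
          linarith
        · have h6 : 0 < -(s * B) := by linarith
          have h7 := mul_pos (sub_pos.2 h1) h6
          linarith
      · have h1 : RR X ⊥ (span (ZMod 2) (X : Set V))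
            (fun v => if v ∈ insert e S then x v else 0) =
            RR X ⊥ (span (ZMod 2) (X : Set V)) (fun v => if v ∈ S then x v else 0) :=
          RR_congr _ _ _ _ _ fun v hv => by
            have hve : v ≠ e := fun h => heX (h ▸ hv)
            by_cases hvS : v ∈ S
            · rw [if_pos hvS, if_pos (Finset.mem_insert_of_mem hvS)]
            · rw [if_neg hvS, if_neg]
              intro h
              rcases Finset.mem_insert.1 h with h | h
              · exact hve h
              · exact hvS h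
        rw [h1]
        exact ih
  have h1 := key X
  have h2 : RR X ⊥ (span (ZMod 2) (X : Set V)) (fun v => if v ∈ X then x v else 0) =
      RR X ⊥ (span (ZMod 2) (X : Set V)) x :=
    RR_congr _ _ _ _ _ fun v hv => if_pos hv
  rw [h2] at h1
  exact h1

/-- **Module X2** -/
theorem thm_Box : St_Box := by
  intro V _ _ _ X h0 x y hx h
  rw [PP_real X ⊥ x y h, bot_sup_eq]
  intro h1
  have h2 := pos_box' X h0 x hx
  rw [Complex.ofReal_eq_zero] at h1
  rw [h1, mul_zero] at h2
  exact lt_irrefl _ h2

/-- **Module X3** -/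
theorem thm_WeightedBlock : St_WeightedBlock := by
  classical
  intro ι V _ _ _ _ Q Cyc r hB a u C T hF ⟨x, hx0, hxd, hx⟩
  by_contra hno
  have h0 : (0 : V) ∉ Q.image r := by
    intro h
    obtain ⟨i, hi, h1⟩ := Finset.mem_image.1 h
    exact hB.ne i hi h1
  -- the weights of the rows
  obtain ⟨x', hx'⟩ : ∃ x' : V → ℂ, ∀ i ∈ Q, x' (r i) = x i := by
    refine ⟨fun v => if h : ∃ i ∈ Q, r i = v then x h.choose else 0, fun i hi => ?_⟩
    have h : ∃ j ∈ Q, r j = r i := ⟨i, hi, rfl⟩
    show (if h : ∃ j ∈ Q, r j = r i then x h.choose else 0) = x i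
    rw [dif_pos h]
    exact congrArg x (hB.inj h.choose_spec.1 hi h.choose_spec.2)
  -- the polynomial is zero
  have hPP : PP (Q.image r) ⊥ x' = 0 := by
    rw [PP_cc]
    refine psi_zero (Q.image r) u hno (fun S => ∏ v ∈ S, x' v) fun S hS S' hS' hsu => ?_
    have hsm := small_of_rel (Q.image r) a u C T hF _ (rel_of_su (Q.image r) u S S' hS hS' hsu)
    obtain ⟨d, hd⟩ : ∃ d : V → ℤ, d = fun v => ic S v - ic S' v := ⟨_, rfl⟩
    rw [← hd] at hsm
    obtain ⟨d', hd'⟩ : ∃ d' : ι → ℤ, d' = fun i => if i ∈ Q then d (r i) else 0 := ⟨_, rfl⟩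
    have hd'1 : ∀ i ∈ Q, d' i = d (r i) := by
      intro i h
      rw [hd']
      exact if_pos h
    have hsh : Short Q (fun i => a (r i)) T d' := by
      refine ⟨fun i => ?_, fun i h => ?_, ?_⟩
      · by_cases h : i ∈ Q
        · rw [hd'1 i h]
          exact hsm.1 (r i)
        · rw [hd']
          exact Or.inr (Or.inl (if_neg h))
      · rw [hd']
        exact if_neg h
      · have h1 := hsm.2.2
        rw [Finset.sum_image hB.inj] at h1
        rw [Finset.sum_congr rfl fun i hi => by rw [hd'1 i hi]]
        exact h1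
    have h1 := hxd d' hsh
    have hx'0 : ∀ v ∈ Q.image r, x' v ≠ 0 := by
      intro v hv
      obtain ⟨i, hi, rfl⟩ := Finset.mem_image.1 hv
      rw [hx' i hi]
      exact hx0 i hi
    have h2 : ∏ v ∈ Q.image r, x' v ^ d v = 1 := by
      rw [Finset.prod_image hB.inj, ← h1]
      refine Finset.prod_congr rfl fun i hi => ?_
      rw [hx' i hi, hd'1 i hi]
    have h3 : ∀ W ⊆ Q.image r, ∏ v ∈ Q.image r, x' v ^ ic W v = ∏ v ∈ W, x' v := by
      intro W hW
      rw [← Finset.prod_subset hW fun v _ hv => by rw [ic_not W v hv, zpow_zero]]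
      refine Finset.prod_congr rfl fun v hv => ?_
      rw [ic_mem W v hv, zpow_one]
    have h4 : ∏ v ∈ Q.image r, x' v ^ d v =
        (∏ v ∈ Q.image r, x' v ^ ic S v) / ∏ v ∈ Q.image r, x' v ^ ic S' v := by
      rw [← Finset.prod_div_distrib]
      refine Finset.prod_congr rfl fun v hv => ?_
      rw [hd, zpow_sub₀ (hx'0 v hv)]
    rw [h2, h3 S hS, h3 S' hS'] at h4
    have h5 : ∏ v ∈ S', x' v ≠ 0 := Finset.prod_ne_zero_iff.2 fun v hv => hx'0 v (hS' hv)
    exact ((div_eq_one_iff_eq h5).1 h4.symm)
  rcases hx with hx | hx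
  · rw [← thm_Forest ι V Q Cyc r hB x x' hx'] at hx
    exact hx hPP
  · -- real weights
    have h1 : ∀ v ∈ Q.image r, ∃ y : ℝ, x' v = y ∧ -1 ≤ y ∧ y < 1 := by
      intro v hv
      obtain ⟨i, hi, rfl⟩ := Finset.mem_image.1 hv
      rw [hx' i hi]
      exact hx i hi
    choose! y hy using h1
    exact thm_Box V (Q.image r) h0 y x' (fun v hv => (hy v hv).2) (fun v hv => (hy v hv).1) hPP

end Pool.Agent.TRJ
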